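import Mathlib
import Pool.Agent.H523R3.TransMain

/-!
# Simplicial 3-polytopes with transversal ratio close to one half

A nested chain of `m` blocks of four vertices `a, b, c, d` each, given by three height functions.
Every set of vertices without a facet has at most `2 m + 2` elements.
-/

set_option autoImplicit false

namespace Pool.Agent.U728.Trans

open Pool.Agent.H523R3.Trans Pool.Agent.H523R3.Frames

/-- height number `k` of the vertex of kind `r` (`0, 1, 2, 3` for `a, b, c, d`) in block `j` -/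
def hgt (k r : ℕ) (j : ℤ) : ℤ :=
  if k = 0 then (if r = 0 then 4 * j - 1 else if r = 1 then 4 * j else if r = 2 then -4 * j + 1
    else -4 * j)
  else if k = 1 then (if r = 0 then -4 * j + 2 else if r = 1 then -4 * j else if r = 2 then 4 * j
    else -4 * j + 1)
  else (if r = 0 then -4 * j + 2 else if r = 1 then -4 * j + 1 else if r = 2 then -4 * j
    else 4 * j)

/-- the three height functions -/
def HF (m : ℕ) (k : Fin 3) (v : Fin (4 * m)) : ℤ :=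
  hgt k.1 (v.1 % 4) (((v.1 / 4 : ℕ) : ℤ) + 1)

theorem HF_anti (m : ℕ) (u v : Fin (4 * m)) (h : u ≠ v) : ∃ k, HF m k u < HF m k v := by
  by_contra hcon
  push Not at hcon
  have h0 := hcon 0
  have h1 := hcon 1
  have h2 := hcon 2
  simp only [HF, hgt, Fin.val_zero, Fin.val_one, Fin.val_two, if_true, one_ne_zero, if_false,
    OfNat.ofNat_ne_zero, OfNat.ofNat_ne_one] at h0 h1 h2
  apply h
  apply Fin.ext
  have hu := Nat.div_add_mod u.1 4
  have hv := Nat.div_add_mod v.1 4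
  have hu4 := Nat.mod_lt u.1 (by norm_num : 0 < 4)
  have hv4 := Nat.mod_lt v.1 (by norm_num : 0 < 4)
  generalize u.1 / 4 = ju at *
  generalize v.1 / 4 = jv at *
  generalize u.1 % 4 = ru at *
  generalize v.1 % 4 = rv at *
  interval_cases ru <;> interval_cases rv <;> simp at h0 h1 h2 <;> omega

/-- the vertex of kind `r` in block `j` -/
def vx (m j r : ℕ) (hj : j < m) (hr : r < 4) : Fin (4 * m) := ⟨4 * j + r, by omega⟩

theorem HF_vx {m j r : ℕ} (hj : j < m) (hr : r < 4) (k : Fin 3) :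
    HF m k (vx m j r hj hr) = hgt k.1 r ((j : ℤ) + 1) := by
  unfold HF vx
  have h1 : (4 * j + r) % 4 = r := by omega
  have h2 : (4 * j + r) / 4 = j := by omega
  simp only [h1, h2]

/-- a frame given by three vertices -/
theorem frame_of {m : ℕ} {j0 j1 j2 r0 r1 r2 : ℕ} (h0 : j0 < m) (h1 : j1 < m) (h2 : j2 < m)
    (g0 : r0 < 4) (g1 : r1 < 4) (g2 : r2 < 4)
    (e01 : hgt 0 r1 ((j1 : ℤ) + 1) < hgt 0 r0 ((j0 : ℤ) + 1))
    (e02 : hgt 0 r2 ((j2 : ℤ) + 1) < hgt 0 r0 ((j0 : ℤ) + 1))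
    (e10 : hgt 1 r0 ((j0 : ℤ) + 1) < hgt 1 r1 ((j1 : ℤ) + 1))
    (e12 : hgt 1 r2 ((j2 : ℤ) + 1) < hgt 1 r1 ((j1 : ℤ) + 1))
    (e20 : hgt 2 r0 ((j0 : ℤ) + 1) < hgt 2 r2 ((j2 : ℤ) + 1))
    (e21 : hgt 2 r1 ((j1 : ℤ) + 1) < hgt 2 r2 ((j2 : ℤ) + 1))
    (hv : ∀ (j : ℕ) (r : ℕ), r < 4 → hgt 0 r ((j : ℤ) + 1) ≤ hgt 0 r0 ((j0 : ℤ) + 1) →
      hgt 1 r ((j : ℤ) + 1) ≤ hgt 1 r1 ((j1 : ℤ) + 1) →
      hgt 2 r ((j : ℤ) + 1) ≤ hgt 2 r2 ((j2 : ℤ) + 1) →
      (j = j0 ∧ r = r0) ∨ (j = j1 ∧ r = r1) ∨ (j = j2 ∧ r = r2)) :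
    (∀ k l, l ≠ k → HF m k (![vx m j0 r0 h0 g0, vx m j1 r1 h1 g1, vx m j2 r2 h2 g2] l) <
      HF m k (![vx m j0 r0 h0 g0, vx m j1 r1 h1 g1, vx m j2 r2 h2 g2] k)) ∧
    (∀ v, (∀ k, v ≠ ![vx m j0 r0 h0 g0, vx m j1 r1 h1 g1, vx m j2 r2 h2 g2] k) →
      ∃ k, HF m k (![vx m j0 r0 h0 g0, vx m j1 r1 h1 g1, vx m j2 r2 h2 g2] k) < HF m k v) := by
  constructor
  · intro k l hkl
    fin_cases k <;> fin_cases l <;> simp [HF_vx] at hkl ⊢ <;> assumption
  · intro v hvk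
    by_contra hcon
    push Not at hcon
    have c0 := hcon 0
    have c1 := hcon 1
    have c2 := hcon 2
    simp only [Matrix.cons_val_zero, Matrix.cons_val_one, Matrix.cons_val, HF_vx, Fin.val_zero,
      Fin.val_one, Fin.val_two] at c0 c1 c2
    have hv4 := Nat.mod_lt v.1 (by norm_num : 0 < 4)
    have hd := Nat.div_add_mod v.1 4
    rcases hv (v.1 / 4) (v.1 % 4) hv4 c0 c1 c2 with ⟨a, b⟩ | ⟨a, b⟩ | ⟨a, b⟩
    · refine hvk 0 (Fin.ext ?_)
      show v.1 = 4 * j0 + r0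
      omega
    · refine hvk 1 (Fin.ext ?_)
      show v.1 = 4 * j1 + r1
      omega
    · refine hvk 2 (Fin.ext ?_)
      show v.1 = 4 * j2 + r2
      omega

/-- a potential on the traces of a set of vertices on a block -/
def phi (b c d : Bool) : ℕ := if !b && !c && !d then 2 else if b && c && d then 0 else 1

theorem phi_first : ∀ a b c d : Bool, ¬ (a && b && c) → ¬ (a && b && d) →
    a.toNat + b.toNat + c.toNat + d.toNat + phi b c d ≤ 4 := by decide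

theorem phi_step : ∀ b' c' d' a b c d : Bool, ¬ (a && b && c) → ¬ (a && b && d) →
    ¬ (a && c && c') → ¬ (a && b' && d) → ¬ (d' && c && d) → ¬ (a && c' && b') →
    ¬ (c' && c && d') → ¬ (b' && d' && d) →
    a.toNat + b.toNat + c.toNat + d.toNat + phi b c d ≤ 2 + phi b' c' d' := by decide

/-- `S` contains no frame -/
def FrameFree (m : ℕ) (S : Finset (Fin (4 * m))) : Prop :=
  ∀ a : Fin 3 → Fin (4 * m), (∀ k l, l ≠ k → HF m k (a l) < HF m k (a k)) →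
    (∀ v, (∀ k, v ≠ a k) → ∃ k, HF m k (a k) < HF m k v) → ∃ k, a k ∉ S

/-- the trace of `S` at the number `x` -/
def tr (m : ℕ) (S : Finset (Fin (4 * m))) (x : ℕ) : Bool :=
  decide (∃ h : x < 4 * m, (⟨x, h⟩ : Fin (4 * m)) ∈ S)

theorem tr_vx {m : ℕ} {S : Finset (Fin (4 * m))} {j r : ℕ} (hj : j < m) (hr : r < 4)
    (h : tr m S (4 * j + r) = true) : vx m j r hj hr ∈ S := by
  unfold tr at h
  obtain ⟨_, h2⟩ := of_decide_eq_true h
  exact h2

theorem no_frame {m : ℕ} {S : Finset (Fin (4 * m))} (hS : FrameFree m S)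
    {j0 j1 j2 r0 r1 r2 : ℕ} (h0 : j0 < m) (h1 : j1 < m) (h2 : j2 < m)
    (g0 : r0 < 4) (g1 : r1 < 4) (g2 : r2 < 4)
    (e01 : hgt 0 r1 ((j1 : ℤ) + 1) < hgt 0 r0 ((j0 : ℤ) + 1))
    (e02 : hgt 0 r2 ((j2 : ℤ) + 1) < hgt 0 r0 ((j0 : ℤ) + 1))
    (e10 : hgt 1 r0 ((j0 : ℤ) + 1) < hgt 1 r1 ((j1 : ℤ) + 1))
    (e12 : hgt 1 r2 ((j2 : ℤ) + 1) < hgt 1 r1 ((j1 : ℤ) + 1))
    (e20 : hgt 2 r0 ((j0 : ℤ) + 1) < hgt 2 r2 ((j2 : ℤ) + 1))
    (e21 : hgt 2 r1 ((j1 : ℤ) + 1) < hgt 2 r2 ((j2 : ℤ) + 1))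
    (hv : ∀ (j : ℕ) (r : ℕ), r < 4 → hgt 0 r ((j : ℤ) + 1) ≤ hgt 0 r0 ((j0 : ℤ) + 1) →
      hgt 1 r ((j : ℤ) + 1) ≤ hgt 1 r1 ((j1 : ℤ) + 1) →
      hgt 2 r ((j : ℤ) + 1) ≤ hgt 2 r2 ((j2 : ℤ) + 1) →
      (j = j0 ∧ r = r0) ∨ (j = j1 ∧ r = r1) ∨ (j = j2 ∧ r = r2)) :
    ¬ (tr m S (4 * j0 + r0) = true ∧ tr m S (4 * j1 + r1) = true ∧
      tr m S (4 * j2 + r2) = true) := by
  rintro ⟨t0, t1, t2⟩
  obtain ⟨f1, f2⟩ := frame_of h0 h1 h2 g0 g1 g2 e01 e02 e10 e12 e20 e21 hv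
  obtain ⟨k, hk⟩ := hS _ f1 f2
  fin_cases k
  · exact hk (tr_vx h0 g0 t0)
  · exact hk (tr_vx h1 g1 t1)
  · exact hk (tr_vx h2 g2 t2)

theorem fr1 {m : ℕ} {S : Finset (Fin (4 * m))} (hS : FrameFree m S) {j : ℕ}
    (hj : j < m) : ¬ (tr m S (4 * j + 1) = true ∧ tr m S (4 * j + 2) = true ∧
      tr m S (4 * j + 0) = true) := by
  refine no_frame hS (j0 := j) (j1 := j) (j2 := j) (r0 := 1) (r1 := 2) (r2 := 0)
    (by omega) (by omega) (by omega) (by norm_num) (by norm_num) (by norm_num) ?_ ?_ ?_ ?_ ?_ ?_ ?_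
  · simp [hgt] <;> omega
  · simp [hgt] <;> omega
  · simp [hgt] <;> omega
  · simp [hgt] <;> omega
  · simp [hgt] <;> omega
  · simp [hgt] <;> omega
  · intro i r hr c0 c1 c2
    interval_cases r <;> simp [hgt] at c0 c1 c2 ⊢ <;> omega

theorem fr2 {m : ℕ} {S : Finset (Fin (4 * m))} (hS : FrameFree m S) {j : ℕ}
    (hj : j < m) : ¬ (tr m S (4 * j + 1) = true ∧ tr m S (4 * j + 0) = true ∧
      tr m S (4 * j + 3) = true) := by
  refine no_frame hS (j0 := j) (j1 := j) (j2 := j) (r0 := 1) (r1 := 0) (r2 := 3)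
    (by omega) (by omega) (by omega) (by norm_num) (by norm_num) (by norm_num) ?_ ?_ ?_ ?_ ?_ ?_ ?_
  · simp [hgt] <;> omega
  · simp [hgt] <;> omega
  · simp [hgt] <;> omega
  · simp [hgt] <;> omega
  · simp [hgt] <;> omega
  · simp [hgt] <;> omega
  · intro i r hr c0 c1 c2
    interval_cases r <;> simp [hgt] at c0 c1 c2 ⊢ <;> omega

theorem fr3 {m : ℕ} {S : Finset (Fin (4 * m))} (hS : FrameFree m S) {j : ℕ}
    (hj : j + 1 < m) : ¬ (tr m S (4 * (j + 1) + 0) = true ∧ tr m S (4 * (j + 1) + 2) = true ∧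
      tr m S (4 * j + 2) = true) := by
  refine no_frame hS (j0 := j + 1) (j1 := j + 1) (j2 := j) (r0 := 0) (r1 := 2) (r2 := 2)
    (by omega) (by omega) (by omega) (by norm_num) (by norm_num) (by norm_num) ?_ ?_ ?_ ?_ ?_ ?_ ?_
  · simp [hgt] <;> omega
  · simp [hgt] <;> omega
  · simp [hgt] <;> omega
  · simp [hgt] <;> omega
  · simp [hgt] <;> omega
  · simp [hgt] <;> omega
  · intro i r hr c0 c1 c2
    interval_cases r <;> simp [hgt] at c0 c1 c2 ⊢ <;> omega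

theorem fr4 {m : ℕ} {S : Finset (Fin (4 * m))} (hS : FrameFree m S) {j : ℕ}
    (hj : j + 1 < m) : ¬ (tr m S (4 * (j + 1) + 0) = true ∧ tr m S (4 * j + 1) = true ∧
      tr m S (4 * (j + 1) + 3) = true) := by
  refine no_frame hS (j0 := j + 1) (j1 := j) (j2 := j + 1) (r0 := 0) (r1 := 1) (r2 := 3)
    (by omega) (by omega) (by omega) (by norm_num) (by norm_num) (by norm_num) ?_ ?_ ?_ ?_ ?_ ?_ ?_
  · simp [hgt] <;> omega
  · simp [hgt] <;> omega
  · simp [hgt] <;> omega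
  · simp [hgt] <;> omega
  · simp [hgt] <;> omega
  · simp [hgt] <;> omega
  · intro i r hr c0 c1 c2
    interval_cases r <;> simp [hgt] at c0 c1 c2 ⊢ <;> omega

theorem fr5 {m : ℕ} {S : Finset (Fin (4 * m))} (hS : FrameFree m S) {j : ℕ}
    (hj : j + 1 < m) : ¬ (tr m S (4 * j + 3) = true ∧ tr m S (4 * (j + 1) + 2) = true ∧
      tr m S (4 * (j + 1) + 3) = true) := by
  refine no_frame hS (j0 := j) (j1 := j + 1) (j2 := j + 1) (r0 := 3) (r1 := 2) (r2 := 3)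
    (by omega) (by omega) (by omega) (by norm_num) (by norm_num) (by norm_num) ?_ ?_ ?_ ?_ ?_ ?_ ?_
  · simp [hgt] <;> omega
  · simp [hgt] <;> omega
  · simp [hgt] <;> omega
  · simp [hgt] <;> omega
  · simp [hgt] <;> omega
  · simp [hgt] <;> omega
  · intro i r hr c0 c1 c2
    interval_cases r <;> simp [hgt] at c0 c1 c2 ⊢ <;> omega

theorem fr6 {m : ℕ} {S : Finset (Fin (4 * m))} (hS : FrameFree m S) {j : ℕ}
    (hj : j + 1 < m) : ¬ (tr m S (4 * (j + 1) + 0) = true ∧ tr m S (4 * j + 2) = true ∧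
      tr m S (4 * j + 1) = true) := by
  refine no_frame hS (j0 := j + 1) (j1 := j) (j2 := j) (r0 := 0) (r1 := 2) (r2 := 1)
    (by omega) (by omega) (by omega) (by norm_num) (by norm_num) (by norm_num) ?_ ?_ ?_ ?_ ?_ ?_ ?_
  · simp [hgt] <;> omega
  · simp [hgt] <;> omega
  · simp [hgt] <;> omega
  · simp [hgt] <;> omega
  · simp [hgt] <;> omega
  · simp [hgt] <;> omega
  · intro i r hr c0 c1 c2
    interval_cases r <;> simp [hgt] at c0 c1 c2 ⊢ <;> omega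

theorem fr7 {m : ℕ} {S : Finset (Fin (4 * m))} (hS : FrameFree m S) {j : ℕ}
    (hj : j + 1 < m) : ¬ (tr m S (4 * j + 2) = true ∧ tr m S (4 * (j + 1) + 2) = true ∧
      tr m S (4 * j + 3) = true) := by
  refine no_frame hS (j0 := j) (j1 := j + 1) (j2 := j) (r0 := 2) (r1 := 2) (r2 := 3)
    (by omega) (by omega) (by omega) (by norm_num) (by norm_num) (by norm_num) ?_ ?_ ?_ ?_ ?_ ?_ ?_
  · simp [hgt] <;> omega
  · simp [hgt] <;> omega
  · simp [hgt] <;> omega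
  · simp [hgt] <;> omega
  · simp [hgt] <;> omega
  · simp [hgt] <;> omega
  · intro i r hr c0 c1 c2
    interval_cases r <;> simp [hgt] at c0 c1 c2 ⊢ <;> omega

theorem fr8 {m : ℕ} {S : Finset (Fin (4 * m))} (hS : FrameFree m S) {j : ℕ}
    (hj : j + 1 < m) : ¬ (tr m S (4 * j + 1) = true ∧ tr m S (4 * j + 3) = true ∧
      tr m S (4 * (j + 1) + 3) = true) := by
  refine no_frame hS (j0 := j) (j1 := j) (j2 := j + 1) (r0 := 1) (r1 := 3) (r2 := 3)
    (by omega) (by omega) (by omega) (by norm_num) (by norm_num) (by norm_num) ?_ ?_ ?_ ?_ ?_ ?_ ?_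
  · simp [hgt] <;> omega
  · simp [hgt] <;> omega
  · simp [hgt] <;> omega
  · simp [hgt] <;> omega
  · simp [hgt] <;> omega
  · simp [hgt] <;> omega
  · intro i r hr c0 c1 c2
    interval_cases r <;> simp [hgt] at c0 c1 c2 ⊢ <;> omega

theorem block_free {m : ℕ} {S : Finset (Fin (4 * m))} (hS : FrameFree m S) {j : ℕ} (hj : j < m) :
    ¬ (tr m S (4 * j) && tr m S (4 * j + 1) && tr m S (4 * j + 2)) ∧
    ¬ (tr m S (4 * j) && tr m S (4 * j + 1) && tr m S (4 * j + 3)) := by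
  have A := fr1 hS hj
  have B := fr2 hS hj
  simp only [Bool.and_eq_true, add_zero] at A B ⊢
  tauto

theorem annulus_free {m : ℕ} {S : Finset (Fin (4 * m))} (hS : FrameFree m S) {i : ℕ}
    (hi : i + 1 < m) :
    ¬ (tr m S (4 * (i + 1)) && tr m S (4 * (i + 1) + 2) && tr m S (4 * i + 2)) ∧
    ¬ (tr m S (4 * (i + 1)) && tr m S (4 * i + 1) && tr m S (4 * (i + 1) + 3)) ∧
    ¬ (tr m S (4 * i + 3) && tr m S (4 * (i + 1) + 2) && tr m S (4 * (i + 1) + 3)) ∧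
    ¬ (tr m S (4 * (i + 1)) && tr m S (4 * i + 2) && tr m S (4 * i + 1)) ∧
    ¬ (tr m S (4 * i + 2) && tr m S (4 * (i + 1) + 2) && tr m S (4 * i + 3)) ∧
    ¬ (tr m S (4 * i + 1) && tr m S (4 * i + 3) && tr m S (4 * (i + 1) + 3)) := by
  have A := fr3 hS hi
  have B := fr4 hS hi
  have C := fr5 hS hi
  have D := fr6 hS hi
  have E := fr7 hS hi
  have F := fr8 hS hi
  simp only [Bool.and_eq_true, add_zero] at A B C D E F ⊢
  refine ⟨?_, ?_, ?_, ?_, ?_, ?_⟩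
  · rintro ⟨⟨x, y⟩, z⟩; exact A ⟨x, y, z⟩
  · rintro ⟨⟨x, y⟩, z⟩; exact B ⟨x, y, z⟩
  · rintro ⟨⟨x, y⟩, z⟩; exact C ⟨x, y, z⟩
  · rintro ⟨⟨x, y⟩, z⟩; exact D ⟨x, y, z⟩
  · rintro ⟨⟨x, y⟩, z⟩; exact E ⟨x, y, z⟩
  · rintro ⟨⟨x, y⟩, z⟩; exact F ⟨x, y, z⟩

/-- number of elements of `S` among the first `x` vertices -/
def cnt (m : ℕ) (S : Finset (Fin (4 * m))) (x : ℕ) : ℕ := ∑ y ∈ Finset.range x, (tr m S y).toNat

theorem cnt_step (m : ℕ) (S : Finset (Fin (4 * m))) (j : ℕ) :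
    cnt m S (4 * (j + 1)) = cnt m S (4 * j) + ((tr m S (4 * j)).toNat + (tr m S (4 * j + 1)).toNat +
      (tr m S (4 * j + 2)).toNat + (tr m S (4 * j + 3)).toNat) := by
  have h : 4 * (j + 1) = 4 * j + 1 + 1 + 1 + 1 := by ring
  unfold cnt
  rw [h, Finset.sum_range_succ, Finset.sum_range_succ, Finset.sum_range_succ,
    Finset.sum_range_succ]
  ring

theorem card_eq_cnt (m : ℕ) (S : Finset (Fin (4 * m))) : S.card = cnt m S (4 * m) := by
  classical
  unfold cnt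
  rw [Finset.sum_range, Finset.card_eq_sum_ones, ← Finset.sum_filter_add_sum_filter_not
    Finset.univ (fun v => v ∈ S) (fun v : Fin (4 * m) => (tr m S v.1).toNat)]
  have h1 : ∑ v ∈ Finset.univ.filter (fun v => v ∈ S), (tr m S v.1).toNat = ∑ v ∈ S, 1 := by
    rw [Finset.filter_mem_eq_inter, Finset.univ_inter]
    refine Finset.sum_congr rfl fun v hv => ?_
    have : tr m S v.1 = true := by
      unfold tr
      exact decide_eq_true ⟨v.2, hv⟩
    rw [this]; rfl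
  have h2 : ∑ v ∈ Finset.univ.filter (fun v => ¬ v ∈ S), (tr m S v.1).toNat = 0 := by
    refine Finset.sum_eq_zero fun v hv => ?_
    have hv' := (Finset.mem_filter.1 hv).2
    have : tr m S v.1 = false := by
      unfold tr
      refine decide_eq_false ?_
      rintro ⟨_, h⟩
      exact hv' h
    rw [this]; rfl
  rw [h1, h2, add_zero]

theorem cnt_le {m : ℕ} {S : Finset (Fin (4 * m))} (hS : FrameFree m S) : ∀ j : ℕ, j < m →
    cnt m S (4 * (j + 1)) + phi (tr m S (4 * j + 1)) (tr m S (4 * j + 2)) (tr m S (4 * j + 3)) ≤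
      2 * (j + 1) + 2 := by
  intro j
  induction j with
  | zero =>
    intro hj
    obtain ⟨b1, b2⟩ := block_free hS hj
    have h := phi_first _ _ _ _ b1 b2
    rw [cnt_step]
    have h0 : cnt m S (4 * 0) = 0 := by simp [cnt]
    rw [h0]
    omega
  | succ i ih =>
    intro hi
    have h1 := ih (by omega)
    obtain ⟨b1, b2⟩ := block_free hS hi
    obtain ⟨a1, a2, a3, a4, a5, a6⟩ := annulus_free hS hi
    have h := phi_step _ _ _ _ _ _ _ b1 b2 a1 a2 a3 a4 a5 a6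
    rw [cnt_step]
    omega

theorem card_le {m : ℕ} (hm : 0 < m) {S : Finset (Fin (4 * m))} (hS : FrameFree m S) :
    S.card ≤ 2 * m + 2 := by
  obtain ⟨i, rfl⟩ : ∃ i, m = i + 1 := ⟨m - 1, by omega⟩
  have h := cnt_le hS i (by omega)
  rw [card_eq_cnt]
  omega

/-- **Simplicial 3-polytopes with transversal ratio close to one half.** -/
theorem exists_polytope3 (m : ℕ) (hm : 0 < m) : ∃ p : Fin (4 * m) → E 3,
    IsSimplicialPolytope 3 p ∧ 1 / 2 - 1 / (2 * (m : ℝ)) ≤ transversalRatio (boundary p) := by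
  classical
  obtain ⟨s, hs, hF, hgp⟩ := exists_paramD (by norm_num : 0 < 3) (HF m)
  have hp := isSimplicialPolytope_pt (by norm_num : 0 < 3) (by omega) (HF m) (HF_anti m) hs hF hgp
  refine ⟨pt (HF m) s, hp, ?_⟩
  have hn0 : 0 < 4 * m := by omega
  have hΔ := isComplex_boundary (by norm_num : 0 < 3) hp
  have hne : {k | ∃ W, IsTransversal (boundary (pt (HF m) s)) W ∧ W.card = k}.Nonempty := by
    refine ⟨_, Finset.univ, ?_, rfl⟩
    intro t ht
    have hne : t.Nonempty := by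
      by_contra hcon
      rw [Finset.not_nonempty_iff_eq_empty] at hcon
      have := ht.2 {⟨0, hn0⟩} (hΔ.vert _) (by rw [hcon]; exact Finset.empty_subset _)
      rw [hcon] at this
      exact Finset.singleton_ne_empty _ this
    obtain ⟨v, hv⟩ := hne
    exact ⟨v, hv, Finset.mem_univ v⟩
  obtain ⟨W, hW, hWcard⟩ := Nat.sInf_mem hne
  have hfree : FrameFree m Wᶜ := by
    intro a ha hv
    obtain ⟨v, hv1, hv2⟩ := hW _ (isFacet_of_frame (by norm_num : 0 < 3) (HF m) hs hF hp a ha hv)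
    simp only [Finset.mem_image, Finset.mem_univ, true_and] at hv1
    obtain ⟨k, rfl⟩ := hv1
    exact ⟨k, fun h => (Finset.mem_compl.1 h) hv2⟩
  have h1 := card_le hm hfree
  have hcompl : (Wᶜ).card + W.card = 4 * m := by
    rw [Finset.card_compl, Fintype.card_fin]
    have : W.card ≤ Fintype.card (Fin (4 * m)) := Finset.card_le_univ W
    rw [Fintype.card_fin] at this
    omega
  have h2 : 2 * m ≤ W.card + 2 := by omega
  have h2R : 2 * (m : ℝ) ≤ W.card + 2 := by exact_mod_cast h2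
  have hmR : (0 : ℝ) < m := by exact_mod_cast hm
  unfold transversalRatio transversalNumber
  rw [← hWcard, le_div_iff₀ (by push_cast; linarith)]
  push_cast
  have h3 : (1 / 2 - 1 / (2 * (m : ℝ))) * (4 * m) = 2 * m - 2 := by
    field_simp
    ring
  rw [h3]
  linarith

end Pool.Agent.U728.Trans
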