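import Mathlib
import Pool.Agent.H523R3.TransSphere

/-!
# Transversal numbers of simplicial 1-spheres

A simplicial complex on `n` vertices whose realisation is homeomorphic to the circle has a
transversal with at most `n / 2 + 1` vertices.
-/

set_option autoImplicit false

namespace Pool.Agent.U728.Trans

open Pool.Agent.H523R3.Trans Set Filter Topology

theorem up_meet {A B : Set ℝ} (hA : IsPreconnected A) (hB : IsPreconnected B) (hA' : A.Nonempty)
    (hB' : B.Nonempty) (h1 : ¬ BddAbove A) (h2 : ¬ BddAbove B) : ¬ Disjoint A B := by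
  obtain ⟨x, hx⟩ := hA'
  obtain ⟨y, hy⟩ := hB'
  obtain ⟨a, ha, hxa⟩ := not_bddAbove_iff.1 h1 (max x y)
  obtain ⟨b, hb, hyb⟩ := not_bddAbove_iff.1 h2 (max x y)
  rw [Set.not_disjoint_iff]
  exact ⟨max x y, hA.ordConnected.out hx ha ⟨le_max_left _ _, hxa.le⟩,
    hB.ordConnected.out hy hb ⟨le_max_right _ _, hyb.le⟩⟩

theorem down_meet {A B : Set ℝ} (hA : IsPreconnected A) (hB : IsPreconnected B) (hA' : A.Nonempty)
    (hB' : B.Nonempty) (h1 : ¬ BddBelow A) (h2 : ¬ BddBelow B) : ¬ Disjoint A B := by
  obtain ⟨x, hx⟩ := hA'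
  obtain ⟨y, hy⟩ := hB'
  obtain ⟨a, ha, hxa⟩ := not_bddBelow_iff.1 h1 (min x y)
  obtain ⟨b, hb, hyb⟩ := not_bddBelow_iff.1 h2 (min x y)
  rw [Set.not_disjoint_iff]
  exact ⟨min x y, hA.ordConnected.out ha hx ⟨hxa.le, min_le_left _ _⟩,
    hB.ordConnected.out hb hy ⟨hyb.le, min_le_right _ _⟩⟩

theorem real_three {D : Fin 3 → Set ℝ} (hpre : ∀ i, IsPreconnected (D i))
    (hne : ∀ i, (D i).Nonempty) (hun : ∀ i, ¬ (BddAbove (D i) ∧ BddBelow (D i)))
    (hdis : ∀ i j, i ≠ j → Disjoint (D i) (D j)) : False := by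
  have h : ∀ i, ¬ BddAbove (D i) ∨ ¬ BddBelow (D i) := fun i => by
    have := hun i; tauto
  have U : ∀ i j, i ≠ j → ¬ BddAbove (D i) → ¬ BddAbove (D j) → False := fun i j hij a b =>
    up_meet (hpre i) (hpre j) (hne i) (hne j) a b (hdis i j hij)
  have V : ∀ i j, i ≠ j → ¬ BddBelow (D i) → ¬ BddBelow (D j) → False := fun i j hij a b =>
    down_meet (hpre i) (hpre j) (hne i) (hne j) a b (hdis i j hij)
  rcases h 0 with a | a <;> rcases h 1 with b | b <;> rcases h 2 with c | c
  · exact U 0 1 (by decide) a b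
  · exact U 0 1 (by decide) a b
  · exact U 0 2 (by decide) a c
  · exact V 1 2 (by decide) b c
  · exact U 1 2 (by decide) b c
  · exact V 0 2 (by decide) a c
  · exact V 0 1 (by decide) a b
  · exact V 0 1 (by decide) a b

instance factE2 : Fact (Module.finrank ℝ (E 2) = 1 + 1) := ⟨by simp⟩

theorem circle_three (p : Metric.sphere (0 : E 2) 1) {C : Fin 3 → Set (Metric.sphere (0 : E 2) 1)}
    (hpre : ∀ i, IsPreconnected (C i)) (hp : ∀ i, p ∉ C i) (hcl : ∀ i, p ∈ closure (C i))
    (hdis : ∀ i j, i ≠ j → Disjoint (C i) (C j)) : False := by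
  let e := stereographic' 1 p
  have hsrc : e.source = {p}ᶜ := stereographic'_source p
  have htgt : e.target = Set.univ := stereographic'_target p
  let ψ : Metric.sphere (0 : E 2) 1 → ℝ := fun x => (e x) 0
  have hsub : ∀ i, C i ⊆ e.source := fun i x hx => by
    rw [hsrc]
    rintro rfl
    exact hp i hx
  have hψc : ContinuousOn ψ e.source := by
    have h1 : ContinuousOn e e.source := e.continuousOn
    have h2 : Continuous fun y : EuclideanSpace ℝ (Fin 1) => y 0 := by fun_prop
    exact h2.comp_continuousOn h1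
  have hne : ∀ i, (C i).Nonempty := fun i => by
    have := hcl i
    exact closure_nonempty_iff.1 ⟨p, this⟩
  have hψi : ∀ x ∈ e.source, ∀ y ∈ e.source, ψ x = ψ y → x = y := by
    intro x hx y hy hxy
    apply e.injOn hx hy
    ext k
    fin_cases k
    exact hxy
  refine real_three (D := fun i => ψ '' C i)
    (fun i => (hpre i).image ψ (hψc.mono (hsub i))) (fun i => (hne i).image ψ) ?_ ?_
  · rintro i ⟨⟨b, hb⟩, ⟨a, ha⟩⟩
    let σ : ℝ → EuclideanSpace ℝ (Fin 1) := fun t => WithLp.toLp 2 (fun _ => t)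
    have hσ : Continuous σ := by
      have : Continuous fun t : ℝ => (fun _ : Fin 1 => t) := by fun_prop
      exact (PiLp.continuous_toLp 2 _).comp this
    have hK : IsCompact (e.symm '' (σ '' Icc a b)) := by
      have h1 : IsCompact (σ '' Icc a b) := isCompact_Icc.image hσ
      refine h1.image_of_continuousOn (e.continuousOn_symm.mono ?_)
      rw [htgt]; exact subset_univ _
    have hCK : C i ⊆ e.symm '' (σ '' Icc a b) := by
      intro x hx
      refine ⟨e x, ⟨ψ x, ⟨ha ⟨x, hx, rfl⟩, hb ⟨x, hx, rfl⟩⟩, ?_⟩, e.left_inv (hsub i hx)⟩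
      ext k
      fin_cases k
      rfl
    have h2 : p ∈ e.symm '' (σ '' Icc a b) := closure_minimal hCK hK.isClosed (hcl i)
    obtain ⟨y, -, hy⟩ := h2
    have h3 : e.symm y ∈ e.source := e.map_target (by rw [htgt]; trivial)
    rw [hy, hsrc] at h3
    exact h3 rfl
  · intro i j hij
    rw [Set.disjoint_left]
    rintro _ ⟨x, hx, rfl⟩ ⟨y, hy, hxy⟩
    have := hψi y (hsub j hy) x (hsub i hx) hxy
    subst this
    exact Set.disjoint_left.1 (hdis i j hij) hx hy

variable {n : ℕ} {Δ : Set (Finset (Fin n))}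

/-- the points `(1 - t) v + t w` -/
def seg (v w : Fin n) (t : ℝ) : Fin n → ℝ := fun k =>
  (1 - t) * (Pi.single v (1 : ℝ) : Fin n → ℝ) k + t * (Pi.single w (1 : ℝ) : Fin n → ℝ) k

theorem seg_mem (hΔ : IsComplex Δ) {v w : Fin n} (h : {v, w} ∈ Δ) {t : ℝ} (h0 : 0 ≤ t)
    (h1 : t ≤ 1) : seg v w t ∈ realization Δ := by
  classical
  refine ⟨fun i => ?_, ?_, hΔ.down _ h _ ?_⟩
  · have a : 0 ≤ (Pi.single v (1 : ℝ) : Fin n → ℝ) i := by
      rw [Pi.single_apply]; split_ifs <;> norm_num
    have b : 0 ≤ (Pi.single w (1 : ℝ) : Fin n → ℝ) i := by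
      rw [Pi.single_apply]; split_ifs <;> norm_num
    exact add_nonneg (mul_nonneg (by linarith) a) (mul_nonneg h0 b)
  · unfold seg
    rw [Finset.sum_add_distrib, ← Finset.mul_sum, ← Finset.mul_sum]
    simp
  · intro i hi
    rw [Finset.mem_filter] at hi
    by_contra hcon
    simp only [Finset.mem_insert, Finset.mem_singleton, not_or] at hcon
    apply hi.2
    unfold seg
    rw [Pi.single_apply, Pi.single_apply, if_neg hcon.1, if_neg hcon.2]
    ring

theorem seg_apply_right {v w : Fin n} (h : w ≠ v) (t : ℝ) : seg v w t w = t := by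
  unfold seg
  rw [Pi.single_apply, Pi.single_apply, if_neg h, if_pos rfl]
  ring

theorem seg_apply_other {v w u : Fin n} (h1 : u ≠ v) (h2 : u ≠ w) (t : ℝ) : seg v w t u = 0 := by
  unfold seg
  rw [Pi.single_apply, Pi.single_apply, if_neg h1, if_neg h2]
  ring

/-- parametrisation of `(0, 1]` by the line -/
noncomputable def tau (s : ℝ) : ℝ := (1 + s ^ 2)⁻¹

theorem tau_pos (s : ℝ) : 0 < tau s := by unfold tau; positivity

theorem tau_le (s : ℝ) : tau s ≤ 1 := by
  unfold tau
  apply inv_le_one_of_one_le₀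
  nlinarith [sq_nonneg s]

theorem tau_cont : Continuous tau := by
  unfold tau
  exact Continuous.inv₀ (by fun_prop) fun s => by positivity

theorem tau_lim : Tendsto tau atTop (𝓝 0) := by
  unfold tau
  apply tendsto_inv_atTop_zero.comp
  exact tendsto_atTop_add_const_left _ _ (tendsto_pow_atTop two_ne_zero)

/-- a vertex of a simplicial 1-sphere has no three neighbours -/
theorem no_three (hΔ : IsComplex Δ) (h : realization Δ ≃ₜ Metric.sphere (0 : E 2) 1)
    (v : Fin n) (w : Fin 3 → Fin n) (hw : Function.Injective w) (hwv : ∀ i, w i ≠ v)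
    (he : ∀ i, {v, w i} ∈ Δ) : False := by
  let g : Fin 3 → ℝ → realization Δ := fun i s =>
    ⟨seg v (w i) (tau s), seg_mem hΔ (he i) (tau_pos s).le (tau_le s)⟩
  have hg : ∀ i, Continuous (g i) := by
    intro i
    refine Continuous.subtype_mk ?_ _
    refine continuous_pi fun k => ?_
    unfold seg
    have := tau_cont
    fun_prop
  let q : realization Δ := ⟨seg v (w 0) 0, seg_mem hΔ (he 0) le_rfl zero_le_one⟩
  have hlim : ∀ i, Tendsto (g i) atTop (𝓝 q) := by
    intro i
    rw [tendsto_subtype_rng, tendsto_pi_nhds]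
    intro k
    show Tendsto (fun s => (1 - tau s) * (Pi.single v (1 : ℝ) : Fin n → ℝ) k +
      tau s * (Pi.single (w i) (1 : ℝ) : Fin n → ℝ) k) atTop
      (𝓝 ((1 - 0) * (Pi.single v (1 : ℝ) : Fin n → ℝ) k +
        0 * (Pi.single (w 0) (1 : ℝ) : Fin n → ℝ) k))
    rw [zero_mul]
    have h1 := (tendsto_const_nhds (x := (1 : ℝ))).sub tau_lim
    have h2 := h1.mul_const ((Pi.single v (1 : ℝ) : Fin n → ℝ) k)
    have h3 := tau_lim.mul_const ((Pi.single (w i) (1 : ℝ) : Fin n → ℝ) k)
    rw [zero_mul] at h3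
    exact h2.add h3
  refine circle_three (h q) (C := fun i => h '' range (g i)) ?_ ?_ ?_ ?_
  · intro i
    exact (isPreconnected_range (hg i)).image _ h.continuous.continuousOn
  · rintro i ⟨_, ⟨s, rfl⟩, hs⟩
    have h1 := congrArg Subtype.val (h.injective hs)
    have h2 := congrFun h1 (w i)
    have h3 : seg v (w i) (tau s) (w i) = tau s := seg_apply_right (hwv i) _
    have h4 : seg v (w 0) 0 (w i) = 0 := by
      unfold seg
      rw [Pi.single_apply, if_neg (hwv i)]
      ring
    have h5 : tau s = 0 := by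
      rw [← h3, ← h4]; exact h2
    exact (tau_pos s).ne' h5
  · intro i
    show h q ∈ closure (h '' range (g i))
    rw [← h.image_closure]
    exact ⟨q, mem_closure_of_tendsto (hlim i) (Eventually.of_forall fun s => ⟨s, rfl⟩), rfl⟩
  · intro i j hij
    rw [Set.disjoint_left]
    rintro _ ⟨_, ⟨s, rfl⟩, rfl⟩ ⟨_, ⟨s', rfl⟩, hs⟩
    have h1 := congrArg Subtype.val (h.injective hs)
    have h2 := congrFun h1 (w i)
    have h3 : seg v (w i) (tau s) (w i) = tau s := seg_apply_right (hwv i) _
    have h4 : seg v (w j) (tau s') (w i) = 0 := seg_apply_other (hwv i) (fun h => hij (hw h)) _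
    have h5 : tau s = 0 := by
      rw [← h3, ← h4]; exact h2.symm
    exact (tau_pos s).ne' h5

/-- the graph of the complex -/
def gr (Δ : Set (Finset (Fin n))) : SimpleGraph (Fin n) where
  Adj u v := u ≠ v ∧ {u, v} ∈ Δ
  symm := ⟨fun u v h => ⟨h.1.symm, by rw [Finset.pair_comm]; exact h.2⟩⟩
  loopless := ⟨fun u h => h.1 rfl⟩

theorem gr_preconnected (hΔ : IsComplex Δ) (h : realization Δ ≃ₜ Metric.sphere (0 : E 2) 1) :
    (gr Δ).Preconnected := by
  classical
  have hrank : 1 < Module.rank ℝ (E 2) := by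
    rw [← Module.finrank_eq_rank]
    simp
  have hsp : PreconnectedSpace (Metric.sphere (0 : E 2) 1) :=
    Subtype.preconnectedSpace (isConnected_sphere hrank (0 : E 2) zero_le_one).isPreconnected
  have hX : PreconnectedSpace (realization Δ) := by
    refine ⟨?_⟩
    have h1 := isPreconnected_univ.image h.symm h.symm.continuous.continuousOn
    rwa [image_univ, h.symm.surjective.range_eq] at h1
  intro u v
  by_contra huv
  let C : Finset (Fin n) := Finset.univ.filter fun w => (gr Δ).Reachable u w
  let g : realization Δ → ℝ := fun x => ∑ i ∈ C, x.1 i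
  have hg : Continuous g := by
    refine continuous_finsetSum _ fun i _ => ?_
    exact (continuous_apply i).comp continuous_subtype_val
  have hvert : ∀ w : Fin n, (Pi.single w (1 : ℝ) : Fin n → ℝ) ∈ realization Δ := by
    intro w
    have h1 := seg_mem (v := w) (w := w) hΔ (by simpa using hΔ.vert w) le_rfl zero_le_one
    have h2 : seg w w 0 = (Pi.single w (1 : ℝ) : Fin n → ℝ) := by
      funext k; unfold seg; ring
    rwa [h2] at h1
  have hu : g ⟨_, hvert u⟩ = 1 := by
    show ∑ i ∈ C, (Pi.single u (1 : ℝ) : Fin n → ℝ) i = 1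
    rw [Finset.sum_pi_single']
    exact if_pos (Finset.mem_filter.2 ⟨Finset.mem_univ _, SimpleGraph.Reachable.refl u⟩)
  have hv : g ⟨_, hvert v⟩ = 0 := by
    show ∑ i ∈ C, (Pi.single v (1 : ℝ) : Fin n → ℝ) i = 0
    rw [Finset.sum_pi_single']
    exact if_neg fun hc => huv (Finset.mem_filter.1 hc).2
  obtain ⟨x, hx⟩ := mem_range_of_exists_le_of_exists_ge hg (c := 1 / 2)
    ⟨_, hv.le.trans (by norm_num)⟩ ⟨_, le_of_le_of_eq (by norm_num) hu.symm⟩
  have hx' : ∑ i ∈ C, x.1 i = 1 / 2 := hx
  obtain ⟨i, hiC, hi⟩ : ∃ i ∈ C, x.1 i ≠ 0 := by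
    apply Finset.exists_ne_zero_of_sum_ne_zero
    rw [hx']; norm_num
  obtain ⟨j, hjC, hj⟩ : ∃ j ∈ Cᶜ, x.1 j ≠ 0 := by
    apply Finset.exists_ne_zero_of_sum_ne_zero
    have h1 := Finset.sum_add_sum_compl C x.1
    rw [hx', x.2.2.1] at h1
    intro h2
    rw [h2] at h1
    norm_num at h1
  have hij : (gr Δ).Adj i j := by
    refine ⟨?_, hΔ.down _ x.2.2.2 _ ?_⟩
    · rintro rfl
      exact (Finset.mem_compl.1 hjC) hiC
    · intro k hk
      rw [Finset.mem_filter]
      refine ⟨Finset.mem_univ _, ?_⟩
      simp only [Finset.mem_insert, Finset.mem_singleton] at hk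
      rcases hk with rfl | rfl
      · exact hi
      · exact hj
  apply Finset.mem_compl.1 hjC
  exact Finset.mem_filter.2 ⟨Finset.mem_univ _, (Finset.mem_filter.1 hiC).2.trans hij.reachable⟩

theorem degree_le (hΔ : IsComplex Δ) (h : realization Δ ≃ₜ Metric.sphere (0 : E 2) 1)
    [DecidableRel (gr Δ).Adj] (v : Fin n) : (gr Δ).degree v ≤ 2 := by
  classical
  by_contra hcon
  push Not at hcon
  obtain ⟨a, b, c, ha, hb, hc, hab, hac, hbc⟩ := Finset.two_lt_card_iff.1 hcon
  rw [SimpleGraph.mem_neighborFinset] at ha hb hc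
  refine no_three hΔ h v ![a, b, c] ?_ ?_ ?_
  · intro i j hij
    fin_cases i <;> fin_cases j <;> simp_all
  · intro i
    fin_cases i
    · exact ha.1.symm
    · exact hb.1.symm
    · exact hc.1.symm
  · intro i
    fin_cases i
    · exact ha.2
    · exact hb.2
    · exact hc.2

/-- a connected graph with all degrees at most two has a small vertex cover -/
theorem exists_cover {n : ℕ} (G : SimpleGraph (Fin n)) [DecidableRel G.Adj] (hG : G.Connected)
    (hd : ∀ v, G.degree v ≤ 2) : ∃ W : Finset (Fin n), 2 * W.card ≤ n + 2 ∧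
      ∀ u v, G.Adj u v → u ∈ W ∨ v ∈ W := by
  classical
  obtain ⟨T, hTG, hT⟩ := hG.exists_isTree_le
  obtain ⟨c⟩ := hT.isAcyclic.colorable_two
  have hTcard := hT.card_edgeFinset
  have hGcard : G.edgeFinset.card ≤ n := by
    have h1 := G.sum_degrees_eq_twice_card_edges
    have h2 : ∑ v, G.degree v ≤ ∑ _v : Fin n, 2 := Finset.sum_le_sum fun v _ => hd v
    simp only [Finset.sum_const, Finset.card_univ, Fintype.card_fin, smul_eq_mul] at h2
    omega
  have hsub : T.edgeFinset ⊆ G.edgeFinset := SimpleGraph.edgeFinset_mono hTG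
  have hdiff : (G.edgeFinset \ T.edgeFinset).card ≤ 1 := by
    rw [Finset.card_sdiff_of_subset hsub]
    rw [Fintype.card_fin] at hTcard
    omega
  -- the colour classes
  obtain ⟨k, hk⟩ : ∃ k : Fin 2, 2 * (Finset.univ.filter fun v => c v = k).card ≤ n := by
    by_contra hcon
    push Not at hcon
    have h0 := hcon 0
    have h1 := hcon 1
    have h2 : (Finset.univ.filter fun v => c v = 0).card +
        (Finset.univ.filter fun v => c v = 1).card = n := by
      have h3 := Finset.card_filter_add_card_filter_not (s := (Finset.univ : Finset (Fin n)))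
        (p := fun v => c v = 0)
      rw [Finset.card_univ, Fintype.card_fin] at h3
      have h4 : (Finset.univ.filter fun v => c v = 1) = Finset.univ.filter fun v => ¬ c v = 0 := by
        refine Finset.filter_congr fun v _ => ?_
        generalize c v = x
        fin_cases x <;> simp
      rw [h4]
      exact h3
    omega
  have hcov : ∀ u v, T.Adj u v → c u = k ∨ c v = k := by
    intro u v huv
    have := c.valid huv
    generalize c u = x at *
    generalize c v = y at *
    fin_cases x <;> fin_cases y <;> fin_cases k <;> simp_all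
  -- a vertex on the extra edge
  obtain ⟨W0, hW0, hW0'⟩ : ∃ W0 : Finset (Fin n), W0.card ≤ 1 ∧
      ∀ u v, G.Adj u v → ¬ T.Adj u v → u ∈ W0 ∨ v ∈ W0 := by
    rcases (G.edgeFinset \ T.edgeFinset).eq_empty_or_nonempty with he | ⟨e, he⟩
    · refine ⟨∅, by simp, fun u v h1 h2 => ?_⟩
      have : s(u, v) ∈ G.edgeFinset \ T.edgeFinset := by
        rw [Finset.mem_sdiff, SimpleGraph.mem_edgeFinset, SimpleGraph.mem_edgeFinset]
        exact ⟨h1, h2⟩
      rw [he] at this
      exact absurd this (Finset.notMem_empty _)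
    · induction e using Sym2.ind with
      | _ x y =>
        refine ⟨{x}, by simp, fun u v h1 h2 => ?_⟩
        have h3 : s(u, v) ∈ G.edgeFinset \ T.edgeFinset := by
          rw [Finset.mem_sdiff, SimpleGraph.mem_edgeFinset, SimpleGraph.mem_edgeFinset]
          exact ⟨h1, h2⟩
        have h4 := Finset.card_le_one.1 hdiff _ h3 _ he
        rw [Sym2.eq_iff] at h4
        rcases h4 with ⟨a, -⟩ | ⟨-, b⟩
        · left; simp [a]
        · right; simp [b]
  refine ⟨(Finset.univ.filter fun v => c v = k) ∪ W0, ?_, ?_⟩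
  · have := Finset.card_union_le (Finset.univ.filter fun v => c v = k) W0
    omega
  · intro u v huv
    by_cases hT' : T.Adj u v
    · rcases hcov u v hT' with h | h
      · left; simp [h]
      · right; simp [h]
    · rcases hW0' u v huv hT' with h | h
      · left; simp [h]
      · right; simp [h]

/-- **Transversal numbers of simplicial 1-spheres.** -/
theorem transversalNumber_le (hS : IsSimplicialSphere 2 Δ) :
    2 * transversalNumber Δ ≤ n + 2 := by
  classical
  obtain ⟨hΔ, ⟨h⟩⟩ := hS
  rcases Nat.lt_or_ge n 3 with hn | hn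
  · -- all vertices
    have hW : transversalNumber Δ ≤ n := by
      rcases Nat.eq_zero_or_pos n with h0 | h0
      · subst h0
        exfalso
        have hne : (Metric.sphere (0 : E 2) 1).Nonempty := by
          have : Nontrivial (E 2) := inferInstance
          exact NormedSpace.sphere_nonempty.2 zero_le_one
        obtain ⟨y, hy⟩ := hne
        have hx := (h.symm ⟨y, hy⟩).2.2.1
        simp at hx
      · apply Nat.sInf_le
        refine ⟨Finset.univ, ?_, by simp⟩
        intro s hs
        have hne : s.Nonempty := by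
          by_contra hcon
          rw [Finset.not_nonempty_iff_eq_empty] at hcon
          have := hs.2 {⟨0, h0⟩} (hΔ.vert _) (by rw [hcon]; exact Finset.empty_subset _)
          rw [hcon] at this
          exact Finset.singleton_ne_empty _ this
        obtain ⟨v, hv⟩ := hne
        exact ⟨v, hv, Finset.mem_univ v⟩
    omega
  · have hne : Nonempty (Fin n) := ⟨⟨0, by omega⟩⟩
    have hconn : (gr Δ).Connected := ⟨gr_preconnected hΔ h⟩
    obtain ⟨W, hW, hcov⟩ := exists_cover (gr Δ) hconn (degree_le hΔ h)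
    have hT : IsTransversal Δ W := by
      intro s hs
      obtain ⟨u, hu⟩ : s.Nonempty := by
        by_contra hcon
        rw [Finset.not_nonempty_iff_eq_empty] at hcon
        have := hs.2 {⟨0, by omega⟩} (hΔ.vert _) (by rw [hcon]; exact Finset.empty_subset _)
        rw [hcon] at this
        exact Finset.singleton_ne_empty _ this
      by_cases hex : ∃ v ∈ s, v ≠ u
      · obtain ⟨v, hv, hvu⟩ := hex
        have huv : (gr Δ).Adj u v := by
          refine ⟨hvu.symm, hΔ.down _ hs.1 _ ?_⟩
          intro k hk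
          simp only [Finset.mem_insert, Finset.mem_singleton] at hk
          rcases hk with rfl | rfl
          · exact hu
          · exact hv
        rcases hcov u v huv with h1 | h1
        · exact ⟨u, hu, h1⟩
        · exact ⟨v, hv, h1⟩
      · -- an isolated vertex
        exfalso
        push Not at hex
        have hsu : s = {u} := by
          apply Finset.Subset.antisymm
          · intro v hv; exact Finset.mem_singleton.2 (hex v hv)
          · intro v hv; rw [Finset.mem_singleton] at hv; rw [hv]; exact hu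
        have hnt : Nontrivial (Fin n) := Fin.nontrivial_iff_two_le.2 (by omega)
        obtain ⟨w, hw⟩ := hconn.preconnected.exists_adj_of_nontrivial u
        have := hs.2 {u, w} hw.2 (by rw [hsu]; simp)
        rw [hsu] at this
        have hwm : w ∈ ({u} : Finset (Fin n)) := by rw [← this]; simp
        exact hw.1 (Finset.mem_singleton.1 hwm).symm
    have h1 : transversalNumber Δ ≤ W.card := Nat.sInf_le ⟨W, hT, rfl⟩
    omega

end Pool.Agent.U728.Trans
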